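import Pool.Agent.T6.H19.PQ.Param

/-!
PEPS approximation of gapped ground states on the torus: passing along gapped paths of Hamiltonians
and to the factors of a stack.

`Joined p Φ₀ Φ₁`: the unit vectors `Φ₀` and `Φ₁` are the endpoints of a path of ground vectors of
Hamiltonians, which need not be translation invariant, with unique ground vectors, gaps at least
`1 / p`, range, norms and Lipschitz constant at most `p`.

`Reach p q Ψ`: the stack of `Ψ` with some unit vector `Ψ'` is joined in this way (up to an error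
`exp (-q) / 16`) to a vector which has overlap at least `exp (-q)` with some PEPS of bond dimension at
most `exp q`.

The result: a gapped family which is reachable with `p = C₁ (log L)^k₁` and `q = C₂ (log L)^k₂`
satisfies the conclusion of the open problem, for every `c`, with bond dimension
`exp (C (log L)^(36 k₁ + 5 k₂))`. With `k₁ = 0` and `k₂ = 1` these are the gapped families which,
stacked with some `Ψ'`, are joined to product vectors by uniformly gapped paths (the invertible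
phases), and the bond dimension is `exp (C (log L)^5)`.
-/

set_option autoImplicit false
set_option linter.unusedSectionVars false

open scoped BigOperators Matrix
open Finset Pool.Agent.TH235.PP Pool.Agent.T6.H19.PQ
  Pool.Agent.Results.MP_953b23_mp.OverlapBoosting

namespace Pool.Agent.Results.MP_953b23_mp.InvertiblePhases

/-- The tensor product of a vector of the system with local dimension `d` and a vector of the system
with local dimension `a`, as a vector of the system with local dimension `m`; the bijection `e` of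
the bases identifies `ℂ^d ⊗ ℂ^a` and `ℂ^m` at every site. -/
def stack {d a m L : ℕ} (e : Fin d × Fin a ≃ Fin m) (Ψ : (Site L → Fin d) → ℂ)
    (Ψ' : (Site L → Fin a) → ℂ) : (Site L → Fin m) → ℂ := fun s =>
  Ψ (fun x => (e.symm (s x)).1) * Ψ' (fun x => (e.symm (s x)).2)

open scoped Matrix.Norms.L2Operator in
/-- `Φ₀` and `Φ₁` are joined by a gapped path with parameter `p`: there are Hermitian operators
`g s u` on the `R × R` box at `u`, for `0 ≤ s ≤ 1` and all sites `u`, with `0 < R ≤ p`, and unit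
vectors `Φ s`, from `Φ 0 = Φ₀` to `Φ 1 = Φ₁`, such that `Φ s` spans the ground space of the
Hamiltonian `∑ u, term (g s u) u` and the gap is at least `1 / p`; the operator norm of every term is
at most `p`, and every term is Lipschitz in `s` with constant `p`. -/
def Joined {m L : ℕ} [NeZero L] (p : ℝ) (Φ₀ Φ₁ : (Site L → Fin m) → ℂ) : Prop :=
  ∃ (R : ℕ) (g : ℝ → Site L → BoxOp m R) (Φ : ℝ → (Site L → Fin m) → ℂ),
    0 < R ∧ (R : ℝ) ≤ p ∧ Φ 0 = Φ₀ ∧ Φ 1 = Φ₁ ∧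
      ∀ s ∈ Set.Icc (0 : ℝ) 1, normSq (Φ s) = 1 ∧
        IsGappedGround (∑ u, term (g s u) u) (1 / p) (Φ s) ∧
        ∀ u : Site L, (g s u).IsHermitian ∧ ‖term (g s u) u‖ ≤ p ∧
          ∀ t ∈ Set.Icc (0 : ℝ) 1, ‖term (g s u) u - term (g t u) u‖ ≤ p * |s - t|

/-- `Ψ` is reachable from PEPS with parameters `p` and `q`: for some unit vector `Ψ'` of local
dimension `a ≤ exp p`, some vector within `exp (-q) / 16` of the stack `Ψ ⊗ Ψ'` is joined, with
parameter `p`, to a vector `Φ₀` which has overlap at least `exp (-q)` with some unit PEPS of bond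
dimension at most `exp q`. -/
def Reach {d L : ℕ} [NeZero L] (p q : ℝ) (Ψ : (Site L → Fin d) → ℂ) : Prop :=
  ∃ (a m D : ℕ) (e : Fin d × Fin a ≃ Fin m) (Ψ' : (Site L → Fin a) → ℂ)
    (Φ₀ Φ₁ φ : (Site L → Fin m) → ℂ),
    (a : ℝ) ≤ Real.exp p ∧ normSq Ψ' = 1 ∧
      Real.sqrt (normSq (Φ₁ - stack e Ψ Ψ')) ≤ Real.exp (-q) / 16 ∧ Joined p Φ₀ Φ₁ ∧
      (D : ℝ) ≤ Real.exp q ∧ IsPEPS D φ ∧ normSq φ = 1 ∧ Real.exp (-q) ≤ ‖ip Φ₀ φ‖

section unstack

variable {d a m L : ℕ} [NeZero L]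

/-- the configurations of the stack -/
def cfg (e : Fin d × Fin a ≃ Fin m) :
    (Site L → Fin d) × (Site L → Fin a) ≃ (Site L → Fin m) where
  toFun p := fun x => e (p.1 x, p.2 x)
  invFun s := (fun x => (e.symm (s x)).1, fun x => (e.symm (s x)).2)
  left_inv p := by ext x <;> simp
  right_inv s := by
    funext x
    exact e.apply_symm_apply (s x)

theorem stack_cfg (e : Fin d × Fin a ≃ Fin m) (Ψ : (Site L → Fin d) → ℂ)
    (Ψ' : (Site L → Fin a) → ℂ) (p : (Site L → Fin d) × (Site L → Fin a)) :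
    stack e Ψ Ψ' (cfg e p) = Ψ p.1 * Ψ' p.2 := by
  unfold stack cfg
  simp

theorem normSq_cfg (e : Fin d × Fin a ≃ Fin m) (χ : (Site L → Fin m) → ℂ) :
    normSq χ = ∑ t : Site L → Fin a, normSq fun s : Site L → Fin d => χ (cfg e (s, t)) := by
  unfold normSq
  rw [← (cfg (L := L) e).sum_comp, Fintype.sum_prod_type, Finset.sum_comm]

theorem ip_stack (e : Fin d × Fin a ≃ Fin m) (Ψ : (Site L → Fin d) → ℂ)
    (Ψ' : (Site L → Fin a) → ℂ) (χ : (Site L → Fin m) → ℂ) :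
    ip (stack e Ψ Ψ') χ =
      ∑ t : Site L → Fin a, (starRingEnd ℂ) (Ψ' t) * ip Ψ fun s => χ (cfg e (s, t)) := by
  unfold ip
  rw [← (cfg (L := L) e).sum_comp, Fintype.sum_prod_type, Finset.sum_comm]
  refine Finset.sum_congr rfl fun t _ => ?_
  rw [Finset.mul_sum]
  refine Finset.sum_congr rfl fun s _ => ?_
  rw [stack_cfg, map_mul]
  ring

/-- Cauchy–Schwarz -/
theorem ip_stack_le (e : Fin d × Fin a ≃ Fin m) (Ψ : (Site L → Fin d) → ℂ)
    (Ψ' : (Site L → Fin a) → ℂ) (h : normSq Ψ' = 1) (χ : (Site L → Fin m) → ℂ) :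
    ‖ip (stack e Ψ Ψ') χ‖ ^ 2 ≤ ∑ t : Site L → Fin a, ‖ip Ψ fun s => χ (cfg e (s, t))‖ ^ 2 := by
  rw [ip_stack]
  have h1 : ‖∑ t : Site L → Fin a, (starRingEnd ℂ) (Ψ' t) * ip Ψ fun s => χ (cfg e (s, t))‖ ≤
      ∑ t : Site L → Fin a, ‖Ψ' t‖ * ‖ip Ψ fun s => χ (cfg e (s, t))‖ := by
    refine (norm_sum_le _ _).trans (le_of_eq ?_)
    refine Finset.sum_congr rfl fun t _ => ?_
    rw [norm_mul, RCLike.norm_conj]
  have h2 := Finset.sum_mul_sq_le_sq_mul_sq (univ : Finset (Site L → Fin a))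
    (fun t => ‖Ψ' t‖) (fun t => ‖ip Ψ fun s => χ (cfg e (s, t))‖)
  have h3 : ∑ t : Site L → Fin a, ‖Ψ' t‖ ^ 2 = 1 := h
  rw [h3, one_mul] at h2
  exact (pow_le_pow_left₀ (norm_nonneg _) h1 2).trans h2

/-- a PEPS overlap of the stack gives a PEPS overlap of the factor -/
theorem unstack_peps {D : ℕ} (e : Fin d × Fin a ≃ Fin m) (Ψ : (Site L → Fin d) → ℂ)
    (Ψ' : (Site L → Fin a) → ℂ) (h : normSq Ψ' = 1) {χ : (Site L → Fin m) → ℂ}
    (hχ : IsPEPS D χ) (hχ1 : normSq χ = 1) (η : ℝ) (hη : 0 < η)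
    (hov : η ≤ ‖ip (stack e Ψ Ψ') χ‖) :
    ∃ φ : (Site L → Fin d) → ℂ, IsPEPS D φ ∧ normSq φ = 1 ∧ η ≤ ‖ip Ψ φ‖ := by
  have h0 : ∀ t : Site L → Fin a, normSq (fun s : Site L → Fin d => χ (cfg e (s, t))) = 0 →
      ‖ip Ψ fun s => χ (cfg e (s, t))‖ ^ 2 = 0 := by
    intro t ht
    have h1 : nr (fun s : Site L → Fin d => χ (cfg e (s, t))) = 0 := by
      have := nr_sq (fun s : Site L → Fin d => χ (cfg e (s, t)))
      rw [ht] at this
      exact pow_eq_zero_iff (two_ne_zero) |>.1 this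
    have h2 := ip_le Ψ (fun s : Site L → Fin d => χ (cfg e (s, t)))
    rw [h1, mul_zero] at h2
    have h3 := le_antisymm h2 (norm_nonneg _)
    rw [h3]
    norm_num
  obtain ⟨t, ht0, ht⟩ := Pool.Agent.TH235.PP.avg
    (fun t : Site L → Fin a => ‖ip Ψ fun s => χ (cfg e (s, t))‖ ^ 2)
    (fun t : Site L → Fin a => normSq (fun s : Site L → Fin d => χ (cfg e (s, t)))) (η ^ 2) (η ^ 2)
    (fun t => normSq_nonneg _) h0 (by positivity)
    ((pow_le_pow_left₀ hη.le hov 2).trans (ip_stack_le e Ψ Ψ' h χ))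
    (by rw [← normSq_cfg, hχ1, mul_one])
  obtain ⟨A, rfl⟩ := hχ
  have hp : IsPEPS D (fun s : Site L → Fin d => contract A (cfg e (s, t))) :=
    ⟨fun x i => A x (e (i, t x)), rfl⟩
  have hn := nr_sq (fun s : Site L → Fin d => contract A (cfg e (s, t)))
  have hpos : 0 < nr (fun s : Site L → Fin d => contract A (cfg e (s, t))) := by
    rcases (nr_nonneg (fun s : Site L → Fin d => contract A (cfg e (s, t)))).lt_or_eq with h5 | h5
    · exact h5
    · exfalso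
      rw [← h5] at hn
      rw [← hn] at ht0
      norm_num at ht0
  obtain ⟨u1, u2, u3⟩ := unit_of hp hpos
  refine ⟨_, u1, u2, ?_⟩
  rw [u3, le_div_iff₀ hpos]
  apply le_of_sq_le_sq _ (norm_nonneg _)
  rw [mul_pow, hn]
  exact ht

end unstack

section reach

variable {d L : ℕ} [NeZero L]

/-- a PEPS overlap of a reachable vector -/
theorem reach_pure {Ψ : (Site L → Fin d) → ℂ} (P Q : ℕ) (p q : ℝ) (hP : 1 ≤ P) (hQ : 1 ≤ Q)
    (hpd : p + d ≤ P) (hq : q ≤ Q) (hLQ : (L : ℝ) ≤ Real.exp Q) (hbig : 2001 * P ^ 8 * Q ≤ L)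
    (hR : Reach p q Ψ) :
    ∃ (D : ℕ) (φ : (Site L → Fin d) → ℂ),
      (D : ℝ) ≤ Real.exp (q + 3 * 10 ^ 16 * P ^ 36 * Q ^ 5) ∧ IsPEPS D φ ∧ normSq φ = 1 ∧
        Real.exp (-q) / 16 ≤ ‖ip Ψ φ‖ := by
  obtain ⟨a, m, D, e, Ψ', Φ₀, Φ₁, φ, ha, hΨ', hcl, ⟨R, g, Φ, hR0, hRp, h0, h1, hpath⟩, hD, hφ, hφ1,
    hov⟩ := hR
  have hd0 : (0 : ℝ) ≤ d := Nat.cast_nonneg _
  have hpP : p ≤ P := by linarith
  have hR1 : (1 : ℝ) ≤ R := by exact_mod_cast hR0
  have hp0 : 0 < p := by linarith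
  have hm : (m : ℝ) ≤ Real.exp P := by
    have h2 : m = d * a := by
      have := Fintype.card_congr e
      rw [Fintype.card_prod, Fintype.card_fin, Fintype.card_fin, Fintype.card_fin] at this
      exact this.symm
    rw [h2, Nat.cast_mul]
    have h3 : (d : ℝ) ≤ Real.exp d := by
      have := Real.add_one_le_exp (d : ℝ)
      linarith
    calc (d : ℝ) * a ≤ Real.exp d * Real.exp p := mul_le_mul h3 ha (Nat.cast_nonneg _)
          (Real.exp_pos _).le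
      _ = Real.exp (d + p) := (Real.exp_add _ _).symm
      _ ≤ Real.exp P := Real.exp_le_exp.2 (by linarith)
  subst h0 h1
  obtain ⟨D', ψ, hD', hψ, hψ1, hov'⟩ := transport_q P Q hP hQ hR0
    (by
      have : (R : ℝ) ≤ P := hRp.trans hpP
      exact_mod_cast this) hm hLQ hbig g Φ (fun s hs u => ((hpath s hs).2.2 u).1)
    (fun s hs u => ((hpath s hs).2.2 u).2.1.trans hpP)
    (fun s hs t ht u => by
      rw [term_sub]
      exact (((hpath s hs).2.2 u).2.2 t ht).trans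
        (mul_le_mul_of_nonneg_right hpP (abs_nonneg _)))
    (fun s hs => (hpath s hs).1)
    (fun s hs => gapped_mono (hpath s hs).2.1 (one_div_le_one_div_of_le hp0 hpP)) hφ hφ1
    ((Real.exp_le_exp.2 (neg_le_neg hq)).trans hov)
  have h16 : Real.exp (-q) / 16 ≤ ‖ip (stack e Ψ Ψ') ψ‖ := by
    rw [sqrt_normSq] at hcl
    have h2 : ip (Φ 1) ψ = ip (Φ 1 - stack e Ψ Ψ') ψ + ip (stack e Ψ Ψ') ψ := by
      rw [ip_sub_left]; ring
    have h3 : ‖ip (Φ 1 - stack e Ψ Ψ') ψ‖ ≤ Real.exp (-q) / 16 := by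
      refine (ip_le _ _).trans ?_
      rw [nr_one _ hψ1, mul_one]
      exact hcl
    have h4 := norm_add_le (ip (Φ 1 - stack e Ψ Ψ') ψ) (ip (stack e Ψ Ψ') ψ)
    rw [← h2] at h4
    linarith
  obtain ⟨φ', u1, u2, u3⟩ := unstack_peps e Ψ Ψ' hΨ' hψ hψ1 _
    (by positivity) h16
  refine ⟨D', φ', hD'.trans ?_, u1, u2, u3⟩
  rw [Real.exp_add]
  exact mul_le_mul_of_nonneg_right hD (Real.exp_pos _).le

end reach

/-- powers of the logarithm are eventually small -/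
theorem log_pow_le (K : ℝ) (j : ℕ) : ∃ L₀ : ℕ, ∀ L : ℕ, L₀ ≤ L → K * Real.log L ^ j ≤ L := by
  have h1 : (fun x : ℝ => Real.log x ^ j) =o[Filter.atTop] fun x => x := Real.isLittleO_pow_log_id_atTop
  have h2 := (h1.const_mul_left K).bound (show (0 : ℝ) < 1 by norm_num)
  have h3 := tendsto_natCast_atTop_atTop (R := ℝ) |>.eventually h2
  rw [Filter.eventually_atTop] at h3
  obtain ⟨L₀, h⟩ := h3
  refine ⟨L₀, fun L hL => ?_⟩
  have h4 := h L hL
  rw [one_mul, Real.norm_natCast] at h4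
  exact (le_abs_self _).trans h4

section families

variable {d R : ℕ} {h : BoxOp d R} {Δ : ℝ} {Ψ : ∀ L : ℕ, (Site L → Fin d) → ℂ}

/-- reachable families are approximated by PEPS -/
theorem reach_approx (hF : GappedFamily h Δ Ψ) (k₁ k₂ : ℕ) (C₁ C₂ : ℝ) (hk : 1 ≤ k₂)
    (hR : ∃ L₀ : ℕ, ∀ (L : ℕ) [NeZero L], L₀ ≤ L →
      Reach (C₁ * Real.log L ^ k₁) (C₂ * Real.log L ^ k₂) (Ψ L))
    (c : ℝ) (hc : 0 < c) :
    ∃ C : ℝ, Approx Ψ (36 * k₁ + 5 * k₂) C fun L => (L : ℝ) ^ (-c) := by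
  obtain ⟨R', rfl⟩ : ∃ R', R = R' + 1 := ⟨R - 1, by have := hF.range_pos; omega⟩
  obtain ⟨B, hB, hq⟩ := quant d R' h hF.herm Δ hF.gap_pos
  obtain ⟨L₁, hL₁⟩ := hF.ground
  obtain ⟨L₂, hL₂⟩ := hR
  have hC₁ := abs_nonneg C₁
  have hC₂ := abs_nonneg C₂
  have hd0 : (0 : ℝ) ≤ d := Nat.cast_nonneg _
  obtain ⟨K, hK⟩ : ∃ K : ℝ, K = |C₁| + d + 2 := ⟨_, rfl⟩
  have hK0 : 0 < K := by rw [hK]; linarith
  obtain ⟨L₃, hL₃⟩ := log_pow_le (2001 * K ^ 8 * (|C₂| + 2)) (8 * k₁ + k₂)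
  refine ⟨|C₂| + 3 * 10 ^ 16 * K ^ 36 * (|C₂| + 2) ^ 5 + B * (|C₂| + c + 4) ^ 2,
    max 3 (max L₁ (max L₂ L₃)), ?_⟩
  intro L _ hL
  simp only [max_le_iff] at hL
  obtain ⟨h3, ha, hb, hc'⟩ := hL
  obtain ⟨hn, hg⟩ := hL₁ L ha
  have hreach := hL₂ L hb
  have hbig := hL₃ L hc'
  have hl1 := log_ge_one h3
  have hLpos : (0 : ℝ) < L := by
    have : (3 : ℝ) ≤ L := by exact_mod_cast h3
    linarith
  have hll : Real.log L ≤ Real.log L ^ k₂ := by
    calc Real.log L = Real.log L ^ 1 := (pow_one _).symm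
      _ ≤ Real.log L ^ k₂ := pow_le_pow_right₀ hl1 hk
  have hx1 : 1 ≤ Real.log L ^ k₁ := one_le_pow₀ hl1
  have hy1 : 1 ≤ Real.log L ^ k₂ := one_le_pow₀ hl1
  have hfin : Real.log L ^ (36 * k₁ + 5 * k₂) = (Real.log L ^ k₁) ^ 36 * (Real.log L ^ k₂) ^ 5 := by
    rw [pow_add, mul_comm 36, mul_comm 5, pow_mul, pow_mul]
  have hbg : Real.log L ^ (8 * k₁ + k₂) = (Real.log L ^ k₁) ^ 8 * Real.log L ^ k₂ := by
    rw [pow_add, mul_comm 8, pow_mul]
  have hLe : (L : ℝ) = Real.exp (Real.log L) := (Real.exp_log hLpos).symm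
  have hεe : (L : ℝ) ^ (-c) = Real.exp (-(c * Real.log L)) := by
    rw [Real.rpow_def_of_pos hLpos]
    congr 1
    ring
  rw [hbg] at hbig
  beta_reduce
  rw [hfin, hεe]
  generalize Real.log L ^ k₁ = x at hx1 hbig hreach ⊢
  generalize Real.log L ^ k₂ = y at hy1 hbig hreach hll ⊢
  obtain ⟨P, hP⟩ : ∃ P : ℕ, P = ⌈|C₁| * x⌉₊ + d + 1 := ⟨_, rfl⟩
  have hP1 : 1 ≤ P := by omega
  have hPle : (P : ℝ) ≤ K * x := by
    have h1 := (Nat.ceil_lt_add_one (show (0 : ℝ) ≤ |C₁| * x by positivity)).le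
    rw [hP, hK]
    push_cast
    nlinarith
  have hpP : C₁ * x + d ≤ P := by
    have h1 := Nat.le_ceil (|C₁| * x)
    have h2 : C₁ * x ≤ |C₁| * x := mul_le_mul_of_nonneg_right (le_abs_self C₁) (by linarith)
    rw [hP]
    push_cast
    linarith
  obtain ⟨Q, hQ⟩ : ∃ Q : ℕ, Q = ⌈(|C₂| + 1) * y⌉₊ := ⟨_, rfl⟩
  have hQge : (|C₂| + 1) * y ≤ Q := by rw [hQ]; exact Nat.le_ceil _
  have hQle : (Q : ℝ) ≤ (|C₂| + 2) * y := by
    have h1 := (Nat.ceil_lt_add_one (show (0 : ℝ) ≤ (|C₂| + 1) * y by positivity)).le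
    rw [← hQ] at h1
    linarith
  have hCle : C₂ * y ≤ |C₂| * y := mul_le_mul_of_nonneg_right (le_abs_self C₂) (by linarith)
  have hQ1 : 1 ≤ Q := by
    have h1 : (1 : ℝ) ≤ Q := by nlinarith
    exact_mod_cast h1
  have hqQ : C₂ * y ≤ Q := by nlinarith
  have hLQ : (L : ℝ) ≤ Real.exp Q := by
    rw [← Real.log_le_iff_le_exp hLpos]
    nlinarith
  have hbig' : 2001 * P ^ 8 * Q ≤ L := by
    have h1 : (2001 : ℝ) * (P : ℝ) ^ 8 * Q ≤ L := by
      refine le_trans ?_ hbig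
      calc (2001 : ℝ) * (P : ℝ) ^ 8 * Q ≤ 2001 * (K * x) ^ 8 * ((|C₂| + 2) * y) := by gcongr
        _ = 2001 * K ^ 8 * (|C₂| + 2) * (x ^ 8 * y) := by ring
    exact_mod_cast h1
  obtain ⟨D0, φ, hD0, hφ, hφ1, hov⟩ := reach_pure P Q (C₁ * x) (C₂ * y) hP1 hQ1 hpP hqQ hLQ
    hbig' hreach
  have hη : Real.exp (-(|C₂| * y + 3)) ≤ ‖ip (Ψ L) φ‖ := by
    refine le_trans ?_ hov
    have h16 : Real.exp (-3) ≤ 1 / 16 := by
      rw [Real.exp_neg, ← one_div]
      apply one_div_le_one_div_of_le (by norm_num)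
      have := exp_three
      linarith
    rw [neg_add, Real.exp_add]
    calc Real.exp (-(|C₂| * y)) * Real.exp (-3) ≤ Real.exp (-(C₂ * y)) * (1 / 16) :=
          mul_le_mul (Real.exp_le_exp.2 (neg_le_neg hCle)) h16 (Real.exp_pos _).le
            (Real.exp_pos _).le
      _ = Real.exp (-(C₂ * y)) / 16 := by ring
  obtain ⟨D, ψ, hD, hψ, herr⟩ := hq L (by omega) (Ψ L) hn hg D0 φ hφ hφ1
    (Real.exp (-(|C₂| * y + 3))) (Real.exp (-(c * Real.log L))) (Real.exp_pos _) hη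
    (Real.exp_pos _) (Real.exp_le_one_iff.2 (by
      have : 0 ≤ c * Real.log L := by positivity
      linarith))
  refine ⟨D, ψ, hD.trans ?_, hψ, by rw [sqrt_normSq]; exact herr⟩
  have hlog : Real.log (1 / (Real.exp (-(|C₂| * y + 3)) * Real.exp (-(c * Real.log L)))) =
      |C₂| * y + 3 + c * Real.log L := by
    rw [← Real.exp_add, one_div, ← Real.exp_neg, Real.log_exp]
    ring
  rw [hlog]
  generalize Real.log L = l at hl1 hll ⊢
  have hy5 : y ≤ y ^ 5 := by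
    calc y = y ^ 1 := (pow_one y).symm
      _ ≤ y ^ 5 := pow_le_pow_right₀ hy1 (by norm_num)
  have hy25 : y ^ 2 ≤ y ^ 5 := pow_le_pow_right₀ hy1 (by norm_num)
  have hx36 : 1 ≤ x ^ 36 := one_le_pow₀ hx1
  have hxy5 : y ^ 5 ≤ x ^ 36 * y ^ 5 := le_mul_of_one_le_left (by positivity) hx36
  have e1 : C₂ * y + 3 * 10 ^ 16 * (P : ℝ) ^ 36 * (Q : ℝ) ^ 5 ≤
      (|C₂| + 3 * 10 ^ 16 * K ^ 36 * (|C₂| + 2) ^ 5) * (x ^ 36 * y ^ 5) := by
    have h2 : 3 * 10 ^ 16 * (P : ℝ) ^ 36 * (Q : ℝ) ^ 5 ≤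
        3 * 10 ^ 16 * (K * x) ^ 36 * ((|C₂| + 2) * y) ^ 5 := by gcongr
    rw [mul_pow, mul_pow] at h2
    have h4 : |C₂| * y ≤ |C₂| * (x ^ 36 * y ^ 5) :=
      mul_le_mul_of_nonneg_left (hy5.trans hxy5) hC₂
    nlinarith only [h2, h4, hCle]
  have e2 : B * (l + (|C₂| * y + 3 + c * l)) ^ 2 ≤
      B * (|C₂| + c + 4) ^ 2 * (x ^ 36 * y ^ 5) := by
    have h1 : l + (|C₂| * y + 3 + c * l) ≤ (|C₂| + c + 4) * y := by
      have : c * l ≤ c * y := mul_le_mul_of_nonneg_left hll hc.le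
      nlinarith only [this, hll, hy1]
    have h0 : 0 ≤ l + (|C₂| * y + 3 + c * l) := by positivity
    have h2 : (l + (|C₂| * y + 3 + c * l)) ^ 2 ≤ ((|C₂| + c + 4) * y) ^ 2 :=
      pow_le_pow_left₀ h0 h1 2
    calc B * (l + (|C₂| * y + 3 + c * l)) ^ 2 ≤ B * ((|C₂| + c + 4) * y) ^ 2 :=
          mul_le_mul_of_nonneg_left h2 hB.le
      _ = B * (|C₂| + c + 4) ^ 2 * y ^ 2 := by ring
      _ ≤ B * (|C₂| + c + 4) ^ 2 * (x ^ 36 * y ^ 5) :=
          mul_le_mul_of_nonneg_left (hy25.trans hxy5) (by positivity)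
  calc (D0 : ℝ) * Real.exp (B * (l + (|C₂| * y + 3 + c * l)) ^ 2)
      ≤ Real.exp (C₂ * y + 3 * 10 ^ 16 * (P : ℝ) ^ 36 * (Q : ℝ) ^ 5) *
        Real.exp (B * (l + (|C₂| * y + 3 + c * l)) ^ 2) :=
        mul_le_mul_of_nonneg_right hD0 (Real.exp_pos _).le
    _ = Real.exp (C₂ * y + 3 * 10 ^ 16 * (P : ℝ) ^ 36 * (Q : ℝ) ^ 5 +
        B * (l + (|C₂| * y + 3 + c * l)) ^ 2) := (Real.exp_add _ _).symm
    _ ≤ _ := by
        apply Real.exp_le_exp.2
        nlinarith only [e1, e2]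

end families

/-- Let `Ψ` be a gapped family, as in the open problem. If for all large `L` the vector `Ψ L` is
reachable from PEPS with path parameter `C₁ (log L)^k₁` and `q = C₂ (log L)^k₂`, then for every `c`
it is approximated within `L^(-c)` by PEPS of bond dimension at most
`exp (C (log L)^(36 k₁ + 5 k₂))`. -/
theorem result (d R : ℕ) (h : BoxOp d R) (Δ : ℝ) (Ψ : ∀ L : ℕ, (Site L → Fin d) → ℂ)
    (hΨ : GappedFamily h Δ Ψ) (k₁ k₂ : ℕ) (C₁ C₂ : ℝ) (hk : 1 ≤ k₂)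
    (hR : ∃ L₀ : ℕ, ∀ (L : ℕ) [NeZero L], L₀ ≤ L →
      Reach (C₁ * Real.log L ^ k₁) (C₂ * Real.log L ^ k₂) (Ψ L))
    (c : ℝ) (hc : 0 < c) :
    ∃ C : ℝ, Approx Ψ (36 * k₁ + 5 * k₂) C fun L => (L : ℝ) ^ (-c) :=
  reach_approx hΨ k₁ k₂ C₁ C₂ hk hR c hc

end Pool.Agent.Results.MP_953b23_mp.InvertiblePhases
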