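import Pool.Agent.T6.H19.GR.Num

/-!
PEPS approximation of gapped ground states on the torus: growth by local changes of the Hamiltonian.

`Grown p q Φ₀ Φ₁`: the unit vectors `Φ₀` and `Φ₁` are the first and the last member of a sequence of
eigenvectors of Hamiltonians, which need not be translation invariant or gapped, with range and norms
at most `p`. Consecutive Hamiltonians differ only within distance `p` of a site `c k`, every site
occurs at most `q` times among the `c k`, and an operator acting within distance `p` of `c k` links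
the two eigenvectors, with size at least `exp (-q)` and up to vectors whose energies are at distance
at least `1 / p` from the eigenvalue. No path between the Hamiltonians is needed.

`Reach p q Ψ`: the stack of `Ψ` with some unit vector `Ψ'` is grown in this way (up to an error
`exp (-q) / 4`) from a vector which has overlap at least `exp (-q)` with some PEPS of bond dimension
at most `exp q`.

The result: (A) nondegenerate ground vectors of Hamiltonians with gaps at least `Δ` are linked by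
every operator `O`, with size `|⟨Φ', O Φ⟩|`. (B) A gapped family which is reachable with
`p = C₁ (log L)^k₁` and `q = C₂ (log L)^k₂` satisfies the conclusion of the open problem, for every
`c`, with bond dimension `exp (C (log L)^(29 k₁ + 5 k₂))`.
-/

set_option autoImplicit false
set_option linter.unusedSectionVars false

open scoped BigOperators Matrix
open Finset Pool.Agent.TH235.PP Pool.Agent.T6.H19.PQ Pool.Agent.T6.H19.GR
  Pool.Agent.Results.MP_953b23_mp.OverlapBoosting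

namespace Pool.Agent.Results.MP_953b23_mp.LocalGrowth

/-- The tensor product of a vector of the system with local dimension `d` and a vector of the system
with local dimension `a`, as a vector of the system with local dimension `m`; the bijection `e` of
the bases identifies `ℂ^d ⊗ ℂ^a` and `ℂ^m` at every site. -/
def stack {d a m L : ℕ} (e : Fin d × Fin a ≃ Fin m) (Ψ : (Site L → Fin d) → ℂ)
    (Ψ' : (Site L → Fin a) → ℂ) : (Site L → Fin m) → ℂ := fun s =>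
  Ψ (fun x => (e.symm (s x)).1) * Ψ' (fun x => (e.symm (s x)).2)

open scoped Matrix.Norms.L2Operator in
/-- `Φ₁` is grown from `Φ₀` with parameters `p` and `q`: there are `0 < R ≤ p`, Hamiltonians
`H k = ∑ u, term (g k u) u` with Hermitian terms on `R × R` boxes of norm at most `p`, and unit
vectors `Φ k`, from `Φ 0 = Φ₀` to `Φ N = Φ₁`, such that for `k < N`: the terms of `H (k + 1)` and
`H k` are equal except at distance at most `p` from the site `c k`; an operator `O k` of norm at most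
`1` which acts on the sites at distance at most `p` from `c k` links the eigenvectors `Φ k` of `H k`
and `Φ (k + 1)` of `H (k + 1)` with size `|z k| ≥ exp (-q)` and gap `1 / p`. Every site occurs at
most `q` times among the `c k`. -/
def Grown {m L : ℕ} [NeZero L] (p q : ℝ) (Φ₀ Φ₁ : (Site L → Fin m) → ℂ) : Prop :=
  ∃ (R N : ℕ) (g : ℕ → Site L → BoxOp m R) (E : ℕ → ℝ) (Φ : ℕ → (Site L → Fin m) → ℂ)
    (c : ℕ → Site L) (O : ℕ → TorOp m L) (z : ℕ → ℂ),
    0 < R ∧ (R : ℝ) ≤ p ∧ Φ 0 = Φ₀ ∧ Φ N = Φ₁ ∧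
      (∀ u, (((range N).filter fun k => c k = u).card : ℝ) ≤ q) ∧
      (∀ k ≤ N, normSq (Φ k) = 1 ∧ ∀ u, (g k u).IsHermitian ∧ ‖term (g k u) u‖ ≤ p) ∧
      ∀ k < N, (∀ u, p < (cd u (c k) : ℝ) → g (k + 1) u = g k u) ∧
        Sup {v | (cd v (c k) : ℝ) ≤ p} (O k) ∧ ‖O k‖ ≤ 1 ∧ Real.exp (-q) ≤ ‖z k‖ ∧
        Link (∑ u, term (g k u) u) (∑ u, term (g (k + 1) u) u) (O k) (1 / p) (E k) (E (k + 1))
          (Φ k) (Φ (k + 1)) (z k)

/-- `Ψ` is reachable from PEPS with parameters `p` and `q`: for some unit vector `Ψ'` of local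
dimension `a ≤ exp p`, some vector within `exp (-q) / 4` of the stack `Ψ ⊗ Ψ'` is grown, with
parameters `p` and `q`, from a vector `Φ₀` which has overlap at least `exp (-q)` with some unit PEPS
of bond dimension at most `exp q`. -/
def Reach {d L : ℕ} [NeZero L] (p q : ℝ) (Ψ : (Site L → Fin d) → ℂ) : Prop :=
  ∃ (a m D : ℕ) (e : Fin d × Fin a ≃ Fin m) (Ψ' : (Site L → Fin a) → ℂ)
    (Φ₀ Φ₁ φ : (Site L → Fin m) → ℂ),
    (a : ℝ) ≤ Real.exp p ∧ normSq Ψ' = 1 ∧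
      Real.sqrt (normSq (Φ₁ - stack e Ψ Ψ')) ≤ Real.exp (-q) / 4 ∧ Grown p q Φ₀ Φ₁ ∧
      (D : ℝ) ≤ Real.exp q ∧ IsPEPS D φ ∧ normSq φ = 1 ∧ Real.exp (-q) ≤ ‖ip Φ₀ φ‖

section unstack

variable {d a m L : ℕ} [NeZero L]

/-- the configurations of the stack -/
def cfg (e : Fin d × Fin a ≃ Fin m) :
    (Site L → Fin d) × (Site L → Fin a) ≃ (Site L → Fin m) where
  toFun p := fun x => e (p.1 x, p.2 x)
  invFun s := (fun x => (e.symm (s x)).1, fun x => (e.symm (s x)).2)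
  left_inv p := by ext x <;> simp
  right_inv s := by
    funext x
    exact e.apply_symm_apply (s x)

theorem stack_cfg (e : Fin d × Fin a ≃ Fin m) (Ψ : (Site L → Fin d) → ℂ)
    (Ψ' : (Site L → Fin a) → ℂ) (p : (Site L → Fin d) × (Site L → Fin a)) :
    stack e Ψ Ψ' (cfg e p) = Ψ p.1 * Ψ' p.2 := by
  unfold stack cfg
  simp

theorem normSq_cfg (e : Fin d × Fin a ≃ Fin m) (χ : (Site L → Fin m) → ℂ) :
    normSq χ = ∑ t : Site L → Fin a, normSq fun s : Site L → Fin d => χ (cfg e (s, t)) := by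
  unfold normSq
  rw [← (cfg (L := L) e).sum_comp, Fintype.sum_prod_type, Finset.sum_comm]

theorem ip_stack (e : Fin d × Fin a ≃ Fin m) (Ψ : (Site L → Fin d) → ℂ)
    (Ψ' : (Site L → Fin a) → ℂ) (χ : (Site L → Fin m) → ℂ) :
    ip (stack e Ψ Ψ') χ =
      ∑ t : Site L → Fin a, (starRingEnd ℂ) (Ψ' t) * ip Ψ fun s => χ (cfg e (s, t)) := by
  unfold ip
  rw [← (cfg (L := L) e).sum_comp, Fintype.sum_prod_type, Finset.sum_comm]
  refine Finset.sum_congr rfl fun t _ => ?_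
  rw [Finset.mul_sum]
  refine Finset.sum_congr rfl fun s _ => ?_
  rw [stack_cfg, map_mul]
  ring

/-- Cauchy–Schwarz -/
theorem ip_stack_le (e : Fin d × Fin a ≃ Fin m) (Ψ : (Site L → Fin d) → ℂ)
    (Ψ' : (Site L → Fin a) → ℂ) (h : normSq Ψ' = 1) (χ : (Site L → Fin m) → ℂ) :
    ‖ip (stack e Ψ Ψ') χ‖ ^ 2 ≤ ∑ t : Site L → Fin a, ‖ip Ψ fun s => χ (cfg e (s, t))‖ ^ 2 := by
  rw [ip_stack]
  have h1 : ‖∑ t : Site L → Fin a, (starRingEnd ℂ) (Ψ' t) * ip Ψ fun s => χ (cfg e (s, t))‖ ≤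
      ∑ t : Site L → Fin a, ‖Ψ' t‖ * ‖ip Ψ fun s => χ (cfg e (s, t))‖ := by
    refine (norm_sum_le _ _).trans (le_of_eq ?_)
    refine Finset.sum_congr rfl fun t _ => ?_
    rw [norm_mul, RCLike.norm_conj]
  have h2 := Finset.sum_mul_sq_le_sq_mul_sq (univ : Finset (Site L → Fin a))
    (fun t => ‖Ψ' t‖) (fun t => ‖ip Ψ fun s => χ (cfg e (s, t))‖)
  have h3 : ∑ t : Site L → Fin a, ‖Ψ' t‖ ^ 2 = 1 := h
  rw [h3, one_mul] at h2
  exact (pow_le_pow_left₀ (norm_nonneg _) h1 2).trans h2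

/-- a PEPS overlap of the stack gives a PEPS overlap of the factor -/
theorem unstack_peps {D : ℕ} (e : Fin d × Fin a ≃ Fin m) (Ψ : (Site L → Fin d) → ℂ)
    (Ψ' : (Site L → Fin a) → ℂ) (h : normSq Ψ' = 1) {χ : (Site L → Fin m) → ℂ}
    (hχ : IsPEPS D χ) (hχ1 : normSq χ = 1) (η : ℝ) (hη : 0 < η)
    (hov : η ≤ ‖ip (stack e Ψ Ψ') χ‖) :
    ∃ φ : (Site L → Fin d) → ℂ, IsPEPS D φ ∧ normSq φ = 1 ∧ η ≤ ‖ip Ψ φ‖ := by
  have h0 : ∀ t : Site L → Fin a, normSq (fun s : Site L → Fin d => χ (cfg e (s, t))) = 0 →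
      ‖ip Ψ fun s => χ (cfg e (s, t))‖ ^ 2 = 0 := by
    intro t ht
    have h1 : nr (fun s : Site L → Fin d => χ (cfg e (s, t))) = 0 := by
      have := nr_sq (fun s : Site L → Fin d => χ (cfg e (s, t)))
      rw [ht] at this
      exact pow_eq_zero_iff (two_ne_zero) |>.1 this
    have h2 := ip_le Ψ (fun s : Site L → Fin d => χ (cfg e (s, t)))
    rw [h1, mul_zero] at h2
    have h3 := le_antisymm h2 (norm_nonneg _)
    rw [h3]
    norm_num
  obtain ⟨t, ht0, ht⟩ := Pool.Agent.TH235.PP.avg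
    (fun t : Site L → Fin a => ‖ip Ψ fun s => χ (cfg e (s, t))‖ ^ 2)
    (fun t : Site L → Fin a => normSq (fun s : Site L → Fin d => χ (cfg e (s, t)))) (η ^ 2) (η ^ 2)
    (fun t => normSq_nonneg _) h0 (by positivity)
    ((pow_le_pow_left₀ hη.le hov 2).trans (ip_stack_le e Ψ Ψ' h χ))
    (by rw [← normSq_cfg, hχ1, mul_one])
  obtain ⟨A, rfl⟩ := hχ
  have hp : IsPEPS D (fun s : Site L → Fin d => contract A (cfg e (s, t))) :=
    ⟨fun x i => A x (e (i, t x)), rfl⟩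
  have hn := nr_sq (fun s : Site L → Fin d => contract A (cfg e (s, t)))
  have hpos : 0 < nr (fun s : Site L → Fin d => contract A (cfg e (s, t))) := by
    rcases (nr_nonneg (fun s : Site L → Fin d => contract A (cfg e (s, t)))).lt_or_eq with h5 | h5
    · exact h5
    · exfalso
      rw [← h5] at hn
      rw [← hn] at ht0
      norm_num at ht0
  obtain ⟨u1, u2, u3⟩ := unit_of hp hpos
  refine ⟨_, u1, u2, ?_⟩
  rw [u3, le_div_iff₀ hpos]
  apply le_of_sq_le_sq _ (norm_nonneg _)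
  rw [mul_pow, hn]
  exact ht

end unstack

section reach

/-- nondegenerate ground vectors are linked by all operators -/
theorem link_of_gapped {n : Type*} [Fintype n] [DecidableEq n] (H H' O : Matrix n n ℂ) (Δ : ℝ)
    (Φ Φ' : n → ℂ) (hΦ : normSq Φ = 1) (hΦ' : normSq Φ' = 1) (hg : IsGappedGround H Δ Φ)
    (hg' : IsGappedGround H' Δ Φ') :
    ∃ E E' : ℝ, Link H H' O Δ E E' Φ Φ' (ip Φ' (O *ᵥ Φ)) := by
  obtain ⟨E, hE, hs, hgap⟩ := hg
  obtain ⟨E', hE', hs', hgap'⟩ := hg'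
  refine ⟨E, E', hE, hE', fun e χ he hχ => ?_, fun e χ he hχ => ?_⟩
  · by_cases h0 : χ = 0
    · rw [h0]
      unfold ip
      simp
    · have he' : e = E' := by
        rcases hgap' e χ h0 hχ with h | h
        · exact h
        · have := (abs_lt.1 he).2
          linarith
      rw [he'] at hχ
      obtain ⟨a, ha⟩ := hs' χ hχ
      rw [ha, ip_smul_left', ip_smul_left', ip_self_one Φ' hΦ']
      ring
  · by_cases h0 : χ = 0
    · rw [h0]
      unfold ip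
      simp
    · have he' : e = E := by
        rcases hgap e χ h0 hχ with h | h
        · exact h
        · have := (abs_lt.1 he).2
          linarith
      rw [he'] at hχ
      obtain ⟨a, ha⟩ := hs χ hχ
      rw [ha, ip_smul_left', ip_smul_left', ip_self_one Φ hΦ]
      have h1 : ip Φ (Oᴴ *ᵥ Φ') = (starRingEnd ℂ) (ip Φ' (O *ᵥ Φ)) := by
        rw [ip_adj O Φ' Φ]
        rw [ip_eq, ip_eq, inner_conj_symm]
      rw [h1]
      ring

variable {d L : ℕ} [NeZero L]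

/-- a PEPS overlap of a reachable vector -/
theorem reach_pure {Ψ : (Site L → Fin d) → ℂ} (P Q : ℕ) (p q : ℝ) (hP : 1 ≤ P) (hQ : 1 ≤ Q)
    (hpd : p + d ≤ P) (hq : q ≤ Q) (hLQ : (L : ℝ) ≤ Real.exp Q) (hbig : 28807 * P ^ 7 * Q ≤ L)
    (hR : Reach p q Ψ) :
    ∃ (D : ℕ) (φ : (Site L → Fin d) → ℂ),
      (D : ℝ) ≤ Real.exp (q + 2 * 10 ^ 18 * P ^ 29 * Q ^ 5) ∧ IsPEPS D φ ∧ normSq φ = 1 ∧
        Real.exp (-q) / 4 ≤ ‖ip Ψ φ‖ := by
  obtain ⟨a, m, D, e, Ψ', Φ₀, Φ₁, φ, ha, hΨ', hcl, ⟨R, N, g, E, Φ, c, O, z, hR0, hRp, h0, h1, hcount,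
    hterm, hstep⟩, hD, hφ, hφ1, hov⟩ := hR
  have hd0 : (0 : ℝ) ≤ d := Nat.cast_nonneg _
  have hpP : p ≤ P := by linarith
  have hR1 : (1 : ℝ) ≤ R := by exact_mod_cast hR0
  have hp0 : 0 < p := by linarith
  have hm : (m : ℝ) ≤ Real.exp P := by
    have h2 : m = d * a := by
      have := Fintype.card_congr e
      rw [Fintype.card_prod, Fintype.card_fin, Fintype.card_fin, Fintype.card_fin] at this
      exact this.symm
    rw [h2, Nat.cast_mul]
    have h3 : (d : ℝ) ≤ Real.exp d := by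
      have := Real.add_one_le_exp (d : ℝ)
      linarith
    calc (d : ℝ) * a ≤ Real.exp d * Real.exp p := mul_le_mul h3 ha (Nat.cast_nonneg _)
          (Real.exp_pos _).le
      _ = Real.exp (d + p) := (Real.exp_add _ _).symm
      _ ≤ Real.exp P := Real.exp_le_exp.2 (by linarith)
  subst h0 h1
  have hcast : ∀ x : ℕ, (x : ℝ) ≤ p → x ≤ P := fun x hx => by
    have : (x : ℝ) ≤ P := hx.trans hpP
    exact_mod_cast this
  obtain ⟨D', ψ, hD', hψ, hψ1, hov'⟩ := grow_q (N := N) P Q hP hQ hR0 (hcast R hRp) hm hLQ hbig g E Φ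
    c O z (fun k hk u => ((hterm k hk).2 u).1) (fun k hk u => ((hterm k hk).2 u).2.trans hpP)
    (fun k hk => (hterm k hk).1)
    (fun k hk u hu => (hstep k hk).1 u (lt_of_le_of_lt hpP (by exact_mod_cast hu)))
    (fun k hk => (hstep k hk).2.1.mono fun v hv => hcast _ hv)
    (fun k hk => (hstep k hk).2.2.1)
    (fun k hk => by
      obtain ⟨l1, l2, l3, l4⟩ := (hstep k hk).2.2.2.2
      have hle : 1 / (P : ℝ) ≤ 1 / p := one_div_le_one_div_of_le hp0 hpP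
      exact ⟨l1, l2, fun e χ he hχ => l3 e χ (lt_of_lt_of_le he hle) hχ,
        fun e χ he hχ => l4 e χ (lt_of_lt_of_le he hle) hχ⟩)
    (fun k hk => (Real.exp_le_exp.2 (neg_le_neg hq)).trans (hstep k hk).2.2.2.1)
    (fun u => by
      have h2 := (hcount u).trans hq
      exact_mod_cast h2) hφ hφ1
    ((Real.exp_le_exp.2 (neg_le_neg hq)).trans hov)
  have h16 : Real.exp (-q) / 4 ≤ ‖ip (stack e Ψ Ψ') ψ‖ := by
    rw [sqrt_normSq] at hcl
    have h2 : ip (Φ N) ψ = ip (Φ N - stack e Ψ Ψ') ψ + ip (stack e Ψ Ψ') ψ := by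
      rw [ip_sub_left]; ring
    have h3 : ‖ip (Φ N - stack e Ψ Ψ') ψ‖ ≤ Real.exp (-q) / 4 := by
      refine (ip_le _ _).trans ?_
      rw [nr_one _ hψ1, mul_one]
      exact hcl
    have h4 := norm_add_le (ip (Φ N - stack e Ψ Ψ') ψ) (ip (stack e Ψ Ψ') ψ)
    rw [← h2] at h4
    linarith
  obtain ⟨φ', u1, u2, u3⟩ := unstack_peps e Ψ Ψ' hΨ' hψ hψ1 _
    (by positivity) h16
  refine ⟨D', φ', hD'.trans ?_, u1, u2, u3⟩
  rw [Real.exp_add]
  exact mul_le_mul_of_nonneg_right hD (Real.exp_pos _).le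

end reach

/-- powers of the logarithm are eventually small -/
theorem log_pow_le (K : ℝ) (j : ℕ) : ∃ L₀ : ℕ, ∀ L : ℕ, L₀ ≤ L → K * Real.log L ^ j ≤ L := by
  have h1 : (fun x : ℝ => Real.log x ^ j) =o[Filter.atTop] fun x => x := Real.isLittleO_pow_log_id_atTop
  have h2 := (h1.const_mul_left K).bound (show (0 : ℝ) < 1 by norm_num)
  have h3 := tendsto_natCast_atTop_atTop (R := ℝ) |>.eventually h2
  rw [Filter.eventually_atTop] at h3
  obtain ⟨L₀, h⟩ := h3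
  refine ⟨L₀, fun L hL => ?_⟩
  have h4 := h L hL
  rw [one_mul, Real.norm_natCast] at h4
  exact (le_abs_self _).trans h4

section families

variable {d R : ℕ} {h : BoxOp d R} {Δ : ℝ} {Ψ : ∀ L : ℕ, (Site L → Fin d) → ℂ}

/-- reachable families are approximated by PEPS -/
theorem reach_approx (hF : GappedFamily h Δ Ψ) (k₁ k₂ : ℕ) (C₁ C₂ : ℝ) (hk : 1 ≤ k₂)
    (hR : ∃ L₀ : ℕ, ∀ (L : ℕ) [NeZero L], L₀ ≤ L →
      Reach (C₁ * Real.log L ^ k₁) (C₂ * Real.log L ^ k₂) (Ψ L))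
    (c : ℝ) (hc : 0 < c) :
    ∃ C : ℝ, Approx Ψ (29 * k₁ + 5 * k₂) C fun L => (L : ℝ) ^ (-c) := by
  obtain ⟨R', rfl⟩ : ∃ R', R = R' + 1 := ⟨R - 1, by have := hF.range_pos; omega⟩
  obtain ⟨B, hB, hq⟩ := quant d R' h hF.herm Δ hF.gap_pos
  obtain ⟨L₁, hL₁⟩ := hF.ground
  obtain ⟨L₂, hL₂⟩ := hR
  have hC₁ := abs_nonneg C₁
  have hC₂ := abs_nonneg C₂
  have hd0 : (0 : ℝ) ≤ d := Nat.cast_nonneg _
  obtain ⟨K, hK⟩ : ∃ K : ℝ, K = |C₁| + d + 2 := ⟨_, rfl⟩
  have hK0 : 0 < K := by rw [hK]; linarith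
  obtain ⟨L₃, hL₃⟩ := log_pow_le (28807 * K ^ 7 * (|C₂| + 2)) (7 * k₁ + k₂)
  refine ⟨|C₂| + 2 * 10 ^ 18 * K ^ 29 * (|C₂| + 2) ^ 5 + B * (|C₂| + c + 4) ^ 2,
    max 3 (max L₁ (max L₂ L₃)), ?_⟩
  intro L _ hL
  simp only [max_le_iff] at hL
  obtain ⟨h3, ha, hb, hc'⟩ := hL
  obtain ⟨hn, hg⟩ := hL₁ L ha
  have hreach := hL₂ L hb
  have hbig := hL₃ L hc'
  have hl1 := log_ge_one h3
  have hLpos : (0 : ℝ) < L := by
    have : (3 : ℝ) ≤ L := by exact_mod_cast h3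
    linarith
  have hll : Real.log L ≤ Real.log L ^ k₂ := by
    calc Real.log L = Real.log L ^ 1 := (pow_one _).symm
      _ ≤ Real.log L ^ k₂ := pow_le_pow_right₀ hl1 hk
  have hx1 : 1 ≤ Real.log L ^ k₁ := one_le_pow₀ hl1
  have hy1 : 1 ≤ Real.log L ^ k₂ := one_le_pow₀ hl1
  have hfin : Real.log L ^ (29 * k₁ + 5 * k₂) = (Real.log L ^ k₁) ^ 29 * (Real.log L ^ k₂) ^ 5 := by
    rw [pow_add, mul_comm 29, mul_comm 5, pow_mul, pow_mul]
  have hbg : Real.log L ^ (7 * k₁ + k₂) = (Real.log L ^ k₁) ^ 7 * Real.log L ^ k₂ := by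
    rw [pow_add, mul_comm 7, pow_mul]
  have hLe : (L : ℝ) = Real.exp (Real.log L) := (Real.exp_log hLpos).symm
  have hεe : (L : ℝ) ^ (-c) = Real.exp (-(c * Real.log L)) := by
    rw [Real.rpow_def_of_pos hLpos]
    congr 1
    ring
  rw [hbg] at hbig
  beta_reduce
  rw [hfin, hεe]
  generalize Real.log L ^ k₁ = x at hx1 hbig hreach ⊢
  generalize Real.log L ^ k₂ = y at hy1 hbig hreach hll ⊢
  obtain ⟨P, hP⟩ : ∃ P : ℕ, P = ⌈|C₁| * x⌉₊ + d + 1 := ⟨_, rfl⟩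
  have hP1 : 1 ≤ P := by omega
  have hPle : (P : ℝ) ≤ K * x := by
    have h1 := (Nat.ceil_lt_add_one (show (0 : ℝ) ≤ |C₁| * x by positivity)).le
    rw [hP, hK]
    push_cast
    nlinarith
  have hpP : C₁ * x + d ≤ P := by
    have h1 := Nat.le_ceil (|C₁| * x)
    have h2 : C₁ * x ≤ |C₁| * x := mul_le_mul_of_nonneg_right (le_abs_self C₁) (by linarith)
    rw [hP]
    push_cast
    linarith
  obtain ⟨Q, hQ⟩ : ∃ Q : ℕ, Q = ⌈(|C₂| + 1) * y⌉₊ := ⟨_, rfl⟩
  have hQge : (|C₂| + 1) * y ≤ Q := by rw [hQ]; exact Nat.le_ceil _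
  have hQle : (Q : ℝ) ≤ (|C₂| + 2) * y := by
    have h1 := (Nat.ceil_lt_add_one (show (0 : ℝ) ≤ (|C₂| + 1) * y by positivity)).le
    rw [← hQ] at h1
    linarith
  have hCle : C₂ * y ≤ |C₂| * y := mul_le_mul_of_nonneg_right (le_abs_self C₂) (by linarith)
  have hQ1 : 1 ≤ Q := by
    have h1 : (1 : ℝ) ≤ Q := by nlinarith
    exact_mod_cast h1
  have hqQ : C₂ * y ≤ Q := by nlinarith
  have hLQ : (L : ℝ) ≤ Real.exp Q := by
    rw [← Real.log_le_iff_le_exp hLpos]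
    nlinarith
  have hbig' : 28807 * P ^ 7 * Q ≤ L := by
    have h1 : (28807 : ℝ) * (P : ℝ) ^ 7 * Q ≤ L := by
      refine le_trans ?_ hbig
      calc (28807 : ℝ) * (P : ℝ) ^ 7 * Q ≤ 28807 * (K * x) ^ 7 * ((|C₂| + 2) * y) := by gcongr
        _ = 28807 * K ^ 7 * (|C₂| + 2) * (x ^ 7 * y) := by ring
    exact_mod_cast h1
  obtain ⟨D0, φ, hD0, hφ, hφ1, hov⟩ := reach_pure P Q (C₁ * x) (C₂ * y) hP1 hQ1 hpP hqQ hLQ
    hbig' hreach
  have hη : Real.exp (-(|C₂| * y + 3)) ≤ ‖ip (Ψ L) φ‖ := by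
    refine le_trans ?_ hov
    have h16 : Real.exp (-3) ≤ 1 / 4 := by
      rw [Real.exp_neg, ← one_div]
      apply one_div_le_one_div_of_le (by norm_num)
      have := exp_three
      linarith
    rw [neg_add, Real.exp_add]
    calc Real.exp (-(|C₂| * y)) * Real.exp (-3) ≤ Real.exp (-(C₂ * y)) * (1 / 4) :=
          mul_le_mul (Real.exp_le_exp.2 (neg_le_neg hCle)) h16 (Real.exp_pos _).le
            (Real.exp_pos _).le
      _ = Real.exp (-(C₂ * y)) / 4 := by ring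
  obtain ⟨D, ψ, hD, hψ, herr⟩ := hq L (by omega) (Ψ L) hn hg D0 φ hφ hφ1
    (Real.exp (-(|C₂| * y + 3))) (Real.exp (-(c * Real.log L))) (Real.exp_pos _) hη
    (Real.exp_pos _) (Real.exp_le_one_iff.2 (by
      have : 0 ≤ c * Real.log L := by positivity
      linarith))
  refine ⟨D, ψ, hD.trans ?_, hψ, by rw [sqrt_normSq]; exact herr⟩
  have hlog : Real.log (1 / (Real.exp (-(|C₂| * y + 3)) * Real.exp (-(c * Real.log L)))) =
      |C₂| * y + 3 + c * Real.log L := by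
    rw [← Real.exp_add, one_div, ← Real.exp_neg, Real.log_exp]
    ring
  rw [hlog]
  generalize Real.log L = l at hl1 hll ⊢
  have hy5 : y ≤ y ^ 5 := by
    calc y = y ^ 1 := (pow_one y).symm
      _ ≤ y ^ 5 := pow_le_pow_right₀ hy1 (by norm_num)
  have hy25 : y ^ 2 ≤ y ^ 5 := pow_le_pow_right₀ hy1 (by norm_num)
  have hx29 : 1 ≤ x ^ 29 := one_le_pow₀ hx1
  have hxy5 : y ^ 5 ≤ x ^ 29 * y ^ 5 := le_mul_of_one_le_left (by positivity) hx29
  have e1 : C₂ * y + 2 * 10 ^ 18 * (P : ℝ) ^ 29 * (Q : ℝ) ^ 5 ≤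
      (|C₂| + 2 * 10 ^ 18 * K ^ 29 * (|C₂| + 2) ^ 5) * (x ^ 29 * y ^ 5) := by
    have h2 : 2 * 10 ^ 18 * (P : ℝ) ^ 29 * (Q : ℝ) ^ 5 ≤
        2 * 10 ^ 18 * (K * x) ^ 29 * ((|C₂| + 2) * y) ^ 5 := by gcongr
    rw [mul_pow, mul_pow] at h2
    have h4 : |C₂| * y ≤ |C₂| * (x ^ 29 * y ^ 5) :=
      mul_le_mul_of_nonneg_left (hy5.trans hxy5) hC₂
    nlinarith only [h2, h4, hCle]
  have e2 : B * (l + (|C₂| * y + 3 + c * l)) ^ 2 ≤
      B * (|C₂| + c + 4) ^ 2 * (x ^ 29 * y ^ 5) := by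
    have h1 : l + (|C₂| * y + 3 + c * l) ≤ (|C₂| + c + 4) * y := by
      have : c * l ≤ c * y := mul_le_mul_of_nonneg_left hll hc.le
      nlinarith only [this, hll, hy1]
    have h0 : 0 ≤ l + (|C₂| * y + 3 + c * l) := by positivity
    have h2 : (l + (|C₂| * y + 3 + c * l)) ^ 2 ≤ ((|C₂| + c + 4) * y) ^ 2 :=
      pow_le_pow_left₀ h0 h1 2
    calc B * (l + (|C₂| * y + 3 + c * l)) ^ 2 ≤ B * ((|C₂| + c + 4) * y) ^ 2 :=
          mul_le_mul_of_nonneg_left h2 hB.le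
      _ = B * (|C₂| + c + 4) ^ 2 * y ^ 2 := by ring
      _ ≤ B * (|C₂| + c + 4) ^ 2 * (x ^ 29 * y ^ 5) :=
          mul_le_mul_of_nonneg_left (hy25.trans hxy5) (by positivity)
  calc (D0 : ℝ) * Real.exp (B * (l + (|C₂| * y + 3 + c * l)) ^ 2)
      ≤ Real.exp (C₂ * y + 2 * 10 ^ 18 * (P : ℝ) ^ 29 * (Q : ℝ) ^ 5) *
        Real.exp (B * (l + (|C₂| * y + 3 + c * l)) ^ 2) :=
        mul_le_mul_of_nonneg_right hD0 (Real.exp_pos _).le
    _ = Real.exp (C₂ * y + 2 * 10 ^ 18 * (P : ℝ) ^ 29 * (Q : ℝ) ^ 5 +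
        B * (l + (|C₂| * y + 3 + c * l)) ^ 2) := (Real.exp_add _ _).symm
    _ ≤ _ := by
        apply Real.exp_le_exp.2
        nlinarith only [e1, e2]

end families

/-- (A) Let `Φ` and `Φ'` be unit vectors which span the ground spaces of `H` and `H'`, with gaps at
least `Δ`. Then every operator `O` links them, with size `|⟨Φ', O Φ⟩|`.
(B) Let `Ψ` be a gapped family, as in the open problem. If for all large `L` the vector `Ψ L` is
reachable from PEPS, by growth with parameters `C₁ (log L)^k₁` and `C₂ (log L)^k₂`, then for every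
`c` it is approximated within `L^(-c)` by PEPS of bond dimension at most
`exp (C (log L)^(29 k₁ + 5 k₂))`. -/
theorem result :
    (∀ (n : Type) [Fintype n] [DecidableEq n] (H H' O : Matrix n n ℂ) (Δ : ℝ) (Φ Φ' : n → ℂ),
      normSq Φ = 1 → normSq Φ' = 1 → IsGappedGround H Δ Φ → IsGappedGround H' Δ Φ' →
      ∃ E E' : ℝ, Link H H' O Δ E E' Φ Φ' (ip Φ' (O *ᵥ Φ))) ∧
    ∀ (d R : ℕ) (h : BoxOp d R) (Δ : ℝ) (Ψ : ∀ L : ℕ, (Site L → Fin d) → ℂ),
      GappedFamily h Δ Ψ → ∀ (k₁ k₂ : ℕ) (C₁ C₂ : ℝ), 1 ≤ k₂ →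
      (∃ L₀ : ℕ, ∀ (L : ℕ) [NeZero L], L₀ ≤ L →
        Reach (C₁ * Real.log L ^ k₁) (C₂ * Real.log L ^ k₂) (Ψ L)) →
      ∀ c : ℝ, 0 < c → ∃ C : ℝ, Approx Ψ (29 * k₁ + 5 * k₂) C fun L => (L : ℝ) ^ (-c) :=
  ⟨fun _ _ _ H H' O Δ Φ Φ' h1 h2 h3 h4 => link_of_gapped H H' O Δ Φ Φ' h1 h2 h3 h4,
    fun _ _ _ _ _ hΨ k₁ k₂ C₁ C₂ hk hR c hc => reach_approx hΨ k₁ k₂ C₁ C₂ hk hR c hc⟩

end Pool.Agent.Results.MP_953b23_mp.LocalGrowth
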