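import Pool.Agent.T6.H19.MK.Asm
import Pool.Agent.T6.H19.MK.Net
import Pool.Agent.Results.MP_953b23_mp.OverlapBoosting

/-!
PEPS approximation of gapped ground states on the torus: the approximate Markov property.

The sites of the torus are enumerated in some order, and every site `v i` is given a set `B i` of
later sites within distance `ℓ`. The Markov entropy of the vector `Ψ` is the sum over all sites of
the conditional entropies `S(v i | B i) = S(v i, B i) - S(B i)`, computed with the von Neumann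
entropies of the reduced density matrices of `Ψ`. If `B i` were the set of all later sites, the sum
would be the entropy of `Ψ`, which is zero; it is small if the conditional mutual informations between
`v i` and the later sites outside `B i`, given `B i`, are small (the approximate Markov property).

The result: a gapped family whose Markov entropy with `ℓ = C₁ (log L)^k₁` is at most
`C₂ (log L)^k₂`, for some order of the sites, satisfies the conclusion of the open problem for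
every `c`, with bond dimension `exp (C (log L)^(max (4 k₁) (2 k₂)))`.
-/

set_option autoImplicit false
set_option linter.unusedSectionVars false

open scoped BigOperators Matrix ComplexOrder
open Finset Pool.Agent.TH235.PP Pool.Agent.T6.H19.PQ Pool.Agent.T6.H19.MK
  Pool.Agent.Results.MP_953b23_mp.OverlapBoosting

namespace Pool.Agent.Results.MP_953b23_mp.MarkovEntropy

/-- The von Neumann entropy of the reduced density matrix of `|Ψ⟩⟨Ψ|` on the sites of `X`: the sum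
of `-λ log λ` over its eigenvalues. -/
noncomputable def entropy {d L : ℕ} [NeZero L] (Ψ : (Site L → Fin d) → ℂ)
    (X : Finset (Site L)) : ℝ :=
  ∑ j, Real.negMulLog ((rdm_psd Ψ X).1.eigenvalues j)

/-- The Markov entropy of `Ψ` at the scale `ℓ` is at most `q`: for some enumeration `v` of the sites
and some sets `B i` of later sites within distance `ℓ` of `v i` (`cd` is the distance of the sup
norm on the torus), the sum of the conditional entropies `S(v i, B i) - S(B i)` is at most `q`. -/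
def MarkovLE {d L : ℕ} [NeZero L] (ℓ q : ℝ) (Ψ : (Site L → Fin d) → ℂ) : Prop :=
  ∃ (v : Fin (L ^ 2) ≃ Site L) (B : Fin (L ^ 2) → Finset (Site L)),
    (∀ i, ∀ x ∈ B i, i < v.symm x ∧ (cd x (v i) : ℝ) ≤ ℓ) ∧
      ∑ i, (entropy Ψ (insert (v i) (B i)) - entropy Ψ (B i)) ≤ q

/-- powers of the logarithm are eventually small -/
theorem log_pow_le (K : ℝ) (j : ℕ) : ∃ L₀ : ℕ, ∀ L : ℕ, L₀ ≤ L → K * Real.log L ^ j ≤ L := by
  have h1 : (fun x : ℝ => Real.log x ^ j) =o[Filter.atTop] fun x => x :=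
    Real.isLittleO_pow_log_id_atTop
  have h2 := (h1.const_mul_left K).bound (show (0 : ℝ) < 1 by norm_num)
  have h3 := tendsto_natCast_atTop_atTop (R := ℝ) |>.eventually h2
  rw [Filter.eventually_atTop] at h3
  obtain ⟨L₀, h⟩ := h3
  refine ⟨L₀, fun L hL => ?_⟩
  have h4 := h L hL
  rw [one_mul, Real.norm_natCast] at h4
  exact (le_abs_self _).trans h4

/-- a vector with small Markov entropy has a large overlap with a PEPS -/
theorem markov_pure {d L : ℕ} [NeZero L] (Ψ : (Site L → Fin d) → ℂ) (hΨ : normSq Ψ = 1) (ℓ : ℕ)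
    (hℓ : 2 * ℓ + 1 ≤ L) (M : ℝ) (v : Fin (L ^ 2) ≃ Site L) (B : Fin (L ^ 2) → Finset (Site L))
    (hB : ∀ i, ∀ x ∈ B i, i < v.symm x ∧ cd x (v i) ≤ ℓ)
    (hM : ∑ i, (entropy Ψ (insert (v i) (B i)) - entropy Ψ (B i)) ≤ M) :
    ∃ (D : ℕ) (φ : (Site L → Fin d) → ℂ),
      (D : ℝ) ≤ Real.exp ((2 * d * (2 * ℓ + 1) ^ 2 + 1) * (2 * ℓ + 1) ^ 2) ∧ IsPEPS D φ ∧
        normSq φ = 1 ∧ Real.exp (-((M + 1) / 2)) ≤ ‖ip Ψ φ‖ := by
  obtain ⟨T, s, h1, h2, h3⟩ := markov_vector Ψ hΨ v B (fun i x hx => (hB i x hx).1) M hM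
  obtain ⟨D, hD, hP⟩ := peps_seq ℓ hℓ v T (fun i => (h1 i).mono (by
    intro x hx
    rcases Finset.mem_insert.1 (Finset.mem_coe.1 hx) with h | h
    · rw [h]
      show cd (v i) (v i) ≤ ℓ
      simp [cd, za]
    · exact (hB i x h).2)) s
  have hpos : 0 < nr (op T *ᵥ Pi.single s 1) := by
    rcases (nr_nonneg (op T *ᵥ Pi.single s 1)).lt_or_eq with h5 | h5
    · exact h5
    · exfalso
      have h6 := nr_sq (op T *ᵥ Pi.single s 1)
      rw [← h5] at h6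
      rw [← h6] at h2
      norm_num at h2
  obtain ⟨u1, u2, u3⟩ := unit_of hP hpos
  refine ⟨D, _, hD, u1, u2, ?_⟩
  rw [u3, le_div_iff₀ hpos]
  apply le_of_sq_le_sq _ (norm_nonneg _)
  rw [mul_pow, nr_sq, ← Real.exp_nat_mul]
  have h7 : ((2 : ℕ) : ℝ) * -((M + 1) / 2) = -(M + 1) := by push_cast; ring
  rw [h7]
  exact h3

/-- Let `Ψ` be a gapped family, as in the open problem. If for all large `L` the Markov entropy of
`Ψ L` at the scale `C₁ (log L)^k₁` is at most `C₂ (log L)^k₂`, then for every `c` the vector `Ψ L`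
is approximated within `L^(-c)` by PEPS of bond dimension at most
`exp (C (log L)^(max (4 k₁) (2 k₂)))`. -/
theorem result (d R : ℕ) (h : BoxOp d R) (Δ : ℝ) (Ψ : ∀ L : ℕ, (Site L → Fin d) → ℂ)
    (hΨ : GappedFamily h Δ Ψ) (k₁ k₂ : ℕ) (C₁ C₂ : ℝ) (hk : 1 ≤ k₂)
    (hM : ∃ L₀ : ℕ, ∀ (L : ℕ) [NeZero L], L₀ ≤ L →
      MarkovLE (C₁ * Real.log L ^ k₁) (C₂ * Real.log L ^ k₂) (Ψ L))
    (c : ℝ) (hc : 0 < c) :
    ∃ C : ℝ, Approx Ψ (max (4 * k₁) (2 * k₂)) C fun L => (L : ℝ) ^ (-c) := by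
  obtain ⟨R', rfl⟩ : ∃ R', R = R' + 1 := ⟨R - 1, by have := hΨ.range_pos; omega⟩
  obtain ⟨b, hb0, hq⟩ := quant d R' h hΨ.herm Δ hΨ.gap_pos
  obtain ⟨L₁, hL₁⟩ := hΨ.ground
  obtain ⟨L₂, hL₂⟩ := hM
  have hC₁ := abs_nonneg C₁
  have hC₂ := abs_nonneg C₂
  have hd0 : (0 : ℝ) ≤ d := Nat.cast_nonneg _
  obtain ⟨K, hK⟩ : ∃ K : ℝ, K = 2 * |C₁| + 1 := ⟨_, rfl⟩
  have hK1 : 1 ≤ K := by rw [hK]; linarith
  obtain ⟨L₃, hL₃⟩ := log_pow_le K k₁
  refine ⟨(2 * d + 1) * K ^ 4 + b * (|C₂| + c + 2) ^ 2, max 3 (max L₁ (max L₂ L₃)), ?_⟩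
  intro L _ hL
  simp only [max_le_iff] at hL
  obtain ⟨h3, ha, hb, hc'⟩ := hL
  obtain ⟨hn, hg⟩ := hL₁ L ha
  obtain ⟨v, B, hB, hMv⟩ := hL₂ L hb
  have hbig := hL₃ L hc'
  have hl1 := log_ge_one h3
  have hLpos : (0 : ℝ) < L := by
    have : (3 : ℝ) ≤ L := by exact_mod_cast h3
    linarith
  have hll : Real.log L ≤ Real.log L ^ k₂ := by
    calc Real.log L = Real.log L ^ 1 := (pow_one _).symm
      _ ≤ Real.log L ^ k₂ := pow_le_pow_right₀ hl1 hk
  have hx1 : 1 ≤ Real.log L ^ k₁ := one_le_pow₀ hl1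
  have hy1 : 1 ≤ Real.log L ^ k₂ := one_le_pow₀ hl1
  have hx4 : (Real.log L ^ k₁) ^ 4 ≤ Real.log L ^ (max (4 * k₁) (2 * k₂)) := by
    rw [← pow_mul, mul_comm k₁]
    exact pow_le_pow_right₀ hl1 (le_max_left _ _)
  have hy2 : (Real.log L ^ k₂) ^ 2 ≤ Real.log L ^ (max (4 * k₁) (2 * k₂)) := by
    rw [← pow_mul, mul_comm k₂]
    exact pow_le_pow_right₀ hl1 (le_max_right _ _)
  have hεe : (L : ℝ) ^ (-c) = Real.exp (-(c * Real.log L)) := by
    rw [Real.rpow_def_of_pos hLpos]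
    congr 1
    ring
  beta_reduce
  rw [hεe]
  generalize Real.log L ^ (max (4 * k₁) (2 * k₂)) = m at hx4 hy2 ⊢
  generalize Real.log L ^ k₁ = x at hx1 hx4 hbig hB ⊢
  generalize Real.log L ^ k₂ = y at hy1 hy2 hll hMv ⊢
  obtain ⟨ℓ, hℓ⟩ : ∃ ℓ : ℕ, ℓ = ⌊|C₁| * x⌋₊ := ⟨_, rfl⟩
  have hℓle : (ℓ : ℝ) ≤ |C₁| * x := by rw [hℓ]; exact Nat.floor_le (by positivity)
  have hℓK : 2 * (ℓ : ℝ) + 1 ≤ K * x := by rw [hK]; nlinarith
  have hℓL : 2 * ℓ + 1 ≤ L := by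
    have h1 : 2 * (ℓ : ℝ) + 1 ≤ L := hℓK.trans hbig
    exact_mod_cast h1
  have hB' : ∀ i, ∀ x ∈ B i, i < v.symm x ∧ cd x (v i) ≤ ℓ := by
    intro i u hu
    refine ⟨(hB i u hu).1, ?_⟩
    rw [hℓ]
    refine Nat.le_floor ((hB i u hu).2.trans ?_)
    exact mul_le_mul_of_nonneg_right (le_abs_self C₁) (by linarith)
  obtain ⟨D0, φ, hD0, hφ, hφ1, hov⟩ := markov_pure (Ψ L) hn ℓ hℓL (C₂ * y) v B hB' hMv
  have hCle : C₂ * y ≤ |C₂| * y := mul_le_mul_of_nonneg_right (le_abs_self C₂) (by linarith)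
  have hCy : 0 ≤ |C₂| * y := by positivity
  have hη : Real.exp (-(|C₂| * y + 1)) ≤ ‖ip (Ψ L) φ‖ := by
    refine le_trans (Real.exp_le_exp.2 ?_) hov
    linarith
  obtain ⟨D, ψ, hD, hψ, herr⟩ := hq L (by omega) (Ψ L) hn hg D0 φ hφ hφ1
    (Real.exp (-(|C₂| * y + 1))) (Real.exp (-(c * Real.log L))) (Real.exp_pos _) hη
    (Real.exp_pos _) (Real.exp_le_one_iff.2 (by
      have : 0 ≤ c * Real.log L := by positivity
      linarith))
  refine ⟨D, ψ, hD.trans ?_, hψ, by rw [sqrt_normSq]; exact herr⟩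
  have hlog : Real.log (1 / (Real.exp (-(|C₂| * y + 1)) * Real.exp (-(c * Real.log L)))) =
      |C₂| * y + 1 + c * Real.log L := by
    rw [← Real.exp_add, one_div, ← Real.exp_neg, Real.log_exp]
    ring
  rw [hlog]
  generalize Real.log L = l at hl1 hll ⊢
  have e1 : (2 * d * (2 * (ℓ : ℝ) + 1) ^ 2 + 1) * (2 * (ℓ : ℝ) + 1) ^ 2 ≤
      (2 * d + 1) * K ^ 4 * m := by
    have k0 : 1 ≤ (2 * (ℓ : ℝ) + 1) ^ 2 := one_le_pow₀ (by
      have : (0 : ℝ) ≤ ℓ := Nat.cast_nonneg _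
      linarith)
    have k1 : (2 * (ℓ : ℝ) + 1) ^ 4 ≤ (K * x) ^ 4 := pow_le_pow_left₀ (by positivity) hℓK 4
    calc (2 * d * (2 * (ℓ : ℝ) + 1) ^ 2 + 1) * (2 * (ℓ : ℝ) + 1) ^ 2
        ≤ (2 * d * (2 * (ℓ : ℝ) + 1) ^ 2 + (2 * (ℓ : ℝ) + 1) ^ 2) * (2 * (ℓ : ℝ) + 1) ^ 2 := by
          gcongr
      _ = (2 * d + 1) * (2 * (ℓ : ℝ) + 1) ^ 4 := by ring
      _ ≤ (2 * d + 1) * (K * x) ^ 4 := mul_le_mul_of_nonneg_left k1 (by positivity)
      _ = (2 * d + 1) * K ^ 4 * x ^ 4 := by ring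
      _ ≤ (2 * d + 1) * K ^ 4 * m := mul_le_mul_of_nonneg_left hx4 (by positivity)
  have e2 : b * (l + (|C₂| * y + 1 + c * l)) ^ 2 ≤ b * (|C₂| + c + 2) ^ 2 * m := by
    have h1 : l + (|C₂| * y + 1 + c * l) ≤ (|C₂| + c + 2) * y := by
      have : c * l ≤ c * y := mul_le_mul_of_nonneg_left hll hc.le
      nlinarith only [this, hll, hy1]
    have h0 : 0 ≤ l + (|C₂| * y + 1 + c * l) := by positivity
    have h2 : (l + (|C₂| * y + 1 + c * l)) ^ 2 ≤ ((|C₂| + c + 2) * y) ^ 2 :=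
      pow_le_pow_left₀ h0 h1 2
    calc b * (l + (|C₂| * y + 1 + c * l)) ^ 2 ≤ b * ((|C₂| + c + 2) * y) ^ 2 :=
          mul_le_mul_of_nonneg_left h2 hb0.le
      _ = b * (|C₂| + c + 2) ^ 2 * y ^ 2 := by ring
      _ ≤ b * (|C₂| + c + 2) ^ 2 * m := mul_le_mul_of_nonneg_left hy2 (by positivity)
  calc (D0 : ℝ) * Real.exp (b * (l + (|C₂| * y + 1 + c * l)) ^ 2)
      ≤ Real.exp ((2 * d * (2 * ℓ + 1) ^ 2 + 1) * (2 * ℓ + 1) ^ 2) *
        Real.exp (b * (l + (|C₂| * y + 1 + c * l)) ^ 2) :=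
        mul_le_mul_of_nonneg_right hD0 (Real.exp_pos _).le
    _ = Real.exp ((2 * d * (2 * ℓ + 1) ^ 2 + 1) * (2 * ℓ + 1) ^ 2 +
        b * (l + (|C₂| * y + 1 + c * l)) ^ 2) := (Real.exp_add _ _).symm
    _ ≤ _ := by
        apply Real.exp_le_exp.2
        nlinarith only [e1, e2]

end Pool.Agent.Results.MP_953b23_mp.MarkovEntropy
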