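import Pool.Agent.T6.H6.PE.Fin

/-!
PEPS approximation for weakly interacting spin systems on the torus. For every sufficiently small
finite-range interaction `V` (the bound on its size depends only on the local dimension and on the
range) added to a non-interacting Hamiltonian with a unique ground state, and for every finite-range
Hamiltonian with the same spectrum up to scale and shift: the gap is uniform, the partition function
relative to the ground state energy is bounded as for a non-interacting system, the number of states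
below `E₀ + M` is polynomial in `L`, and the ground state is approximated within `L ^ (-c)` by PEPS
with bond dimension polynomial in `L`.
-/

set_option autoImplicit false

open scoped BigOperators Matrix
open Finset Pool.Agent.TH235.PP Pool.Agent.Results.MP_953b23_mp.OverlapBoosting
  Pool.Agent.Results.MP_953b23_mp.ThermalCriterion

namespace Pool.Agent.Results.MP_953b23_mp.WeakInteractions

/-- The non-interacting interaction on the `R × R` box: the level `s` of the site at the corner
`(0, 0)` of the box has the energy `ep s`. -/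
noncomputable def nonInt {d : ℕ} (ep : Fin d → ℝ) (R : ℕ) [NeZero R] : BoxOp d R :=
  Matrix.diagonal fun s => (ep (s (0, 0)) : ℂ)

/-- `h` is a finite-range Hermitian interaction whose Hamiltonians are, for all large `L`,
unitarily equivalent (by any unitary of the full Hilbert space) to `γ` times those of the
interaction `h₀`, up to an additive constant which may depend on `L`. -/
structure Equivalent {d R R' : ℕ} (h : BoxOp d R') (γ : ℝ) (h₀ : BoxOp d R) : Prop where
  range_pos : 0 < R'
  herm : h.IsHermitian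
  equiv : ∃ L₁ : ℕ, ∀ (L : ℕ) [NeZero L], L₁ ≤ L → ∃ (U : TorOp d L) (a : ℝ),
    Uᴴ * U = 1 ∧ ham h L = U * ((γ : ℂ) • ham h₀ L + (a : ℂ) • (1 : TorOp d L)) * Uᴴ

theorem result (d R : ℕ) [NeZero d] [NeZero R] :
    ∃ ε₀ : ℝ, 0 < ε₀ ∧ ∀ (ep : Fin d → ℝ) (V : BoxOp d R), ep 0 = 0 → (∀ s, s ≠ 0 → 1 ≤ ep s) →
      V.IsHermitian → ∑ s, ∑ t, ‖V s t‖ ≤ ε₀ →
      ∀ (R' : ℕ) (h : BoxOp d R') (γ : ℝ), 0 < γ → Equivalent h γ (nonInt ep R + V) →
      (∃ Ψ : ∀ L : ℕ, (Site L → Fin d) → ℂ, GappedFamily h (γ / 2) Ψ) ∧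
      ∀ (Δ : ℝ) (Ψ : ∀ L : ℕ, (Site L → Fin d) → ℂ), GappedFamily h Δ Ψ →
        (∃ L₀ : ℕ, ∀ (L : ℕ) [NeZero L], L₀ ≤ L → ∀ hH : (ham h L).IsHermitian,
          (∀ β : ℝ, 0 ≤ β → partition hH (energy (ham h L) (Ψ L)) β ≤
            (1 + 2 * Real.exp (-(β * γ / 2))) ^ ((d - 1) * L ^ 2)) ∧
          ∀ M : ℝ, 0 ≤ M → (numStates hH (energy (ham h L) (Ψ L) + M) : ℝ) ≤
            Real.exp (2 * (d - 1)) * (L : ℝ) ^ (4 * M / γ)) ∧
        ∀ c : ℝ, 0 < c → ∃ C : ℝ, Approx Ψ 1 C fun L => (L : ℝ) ^ (-c) := by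
  classical
  obtain ⟨k, rfl⟩ : ∃ k, d = k + 1 := ⟨d - 1, by have := NeZero.pos d; omega⟩
  refine ⟨Pool.Agent.T6.H6.PE.eps1 k R, Pool.Agent.T6.H6.PE.eps1_pos k R, ?_⟩
  intro ep V h0 hep hV hVs R' h γ hγ hEq
  obtain ⟨L₁, hL₁⟩ := hEq.equiv
  have hep' : ∀ s : Fin k, 1 ≤ ep s.succ := fun s => hep _ (Fin.succ_ne_zero s)
  have hsite : nonInt ep R = Pool.Agent.T6.H6.PE.site ep R := rfl
  have hsH : (nonInt ep R).IsHermitian := by
    unfold nonInt
    rw [Matrix.isHermitian_diagonal_iff]
    intro s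
    simp [IsSelfAdjoint]
  -- the spectrum for large `L`
  have main : ∀ (L : ℕ) [NeZero L], L₁ ≤ L → ∀ hG : (ham h L).IsHermitian,
      ∃ (s₀ E : ℝ) (x : (Site L → Fin (k + 1)) → ℂ), 0 < s₀ ∧ x ≠ 0 ∧
        IsGappedGround (ham h L) (γ / 2) x ∧ ham h L *ᵥ x = (E : ℂ) • x ∧
        Pool.Agent.T6.H6.PE.TB (fun j => hG.eigenvalues j / γ) (E / γ) s₀ (k * L ^ 2) := by
    intro L _ hL hG
    obtain ⟨U, a, hU, hc⟩ := hL₁ L hL
    have hU' : U * Uᴴ = 1 := mul_eq_one_comm.1 hU
    have hH : (ham (nonInt ep R + V) L).IsHermitian := ham_herm _ (hsH.add hV)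
    obtain ⟨s₀, E₀, φ, hs, hφ, hE, hTB⟩ := Pool.Agent.T6.H6.PE.main1 h0 hep' hV hVs L hH
    have hg := Pool.Agent.T6.H6.PE.gapped hH hs hTB hφ hE
    have hg' := Pool.Agent.T6.H6.PE.ground_scale hU hU' hγ hc hg
    refine ⟨s₀, γ * E₀ + a, U *ᵥ φ, hs, ?_, ?_, ?_,
      Pool.Agent.T6.H6.PE.TB_scale hH hG hU hU' hγ hc hTB⟩
    · intro h1
      apply hφ
      have h2 : Uᴴ *ᵥ (U *ᵥ φ) = 0 := by rw [h1, Matrix.mulVec_zero]
      rwa [Matrix.mulVec_mulVec, hU, Matrix.one_mulVec] at h2
    · have e : γ / 2 = γ * (1 / 2) := by ring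
      rw [e]
      exact hg'
    · rw [Matrix.mulVec_mulVec, hc]
      have e1 : U * ((γ : ℂ) • ham (nonInt ep R + V) L + (a : ℂ) • (1 : TorOp (k + 1) L)) * Uᴴ * U =
          U * ((γ : ℂ) • ham (nonInt ep R + V) L + (a : ℂ) • (1 : TorOp (k + 1) L)) := by
        rw [mul_assoc, hU, mul_one]
      rw [e1, ← Matrix.mulVec_mulVec, Matrix.add_mulVec, Matrix.smul_mulVec, Matrix.smul_mulVec,
        Matrix.one_mulVec]
      have hE' : ham (nonInt ep R + V) L *ᵥ φ = (E₀ : ℂ) • φ := hE
      rw [hE', smul_smul, ← add_smul, Matrix.mulVec_smul]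
      push_cast
      rfl
  refine ⟨?_, ?_⟩
  · -- existence of a gapped family
    have hex : ∀ L : ℕ, ∃ ψ : (Site L → Fin (k + 1)) → ℂ, ∀ [NeZero L], L₁ ≤ L →
        normSq ψ = 1 ∧ IsGappedGround (ham h L) (γ / 2) ψ := by
      intro L
      by_cases hL0 : L = 0
      · refine ⟨0, ?_⟩
        intro hn
        exact absurd hL0 hn.out
      have : NeZero L := ⟨hL0⟩
      by_cases hL : L₁ ≤ L
      · obtain ⟨s₀, E, x, -, hx0, hx, -, -⟩ := main L hL (ham_herm h hEq.herm)
        have hn : 0 < nr x := by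
          rcases (nr_nonneg x).lt_or_eq with h1 | h1
          · exact h1
          · exfalso
            apply hx0
            have h2 : ‖(WithLp.toLp 2 x : EuclideanSpace ℂ (Site L → Fin (k + 1)))‖ = 0 := h1.symm
            have h3 := norm_eq_zero.1 h2
            have h4 := congrArg (fun z : EuclideanSpace ℂ (Site L → Fin (k + 1)) => z.ofLp) h3
            exact h4
        have hc : ((nr x)⁻¹ : ℂ) ≠ 0 := by
          apply inv_ne_zero
          exact_mod_cast hn.ne'
        refine ⟨((nr x)⁻¹ : ℂ) • x, ?_⟩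
        intro _ _
        refine ⟨?_, Pool.Agent.T6.H6.PE.ground_smul hx hc⟩
        have hn' : ‖((nr x)⁻¹ : ℂ)‖ = (nr x)⁻¹ := by
          rw [norm_inv, Complex.norm_real, Real.norm_eq_abs, abs_of_pos hn]
        rw [← nr_sq, nr_smul, hn', inv_mul_cancel₀ hn.ne', one_pow]
      · exact ⟨0, fun h1 => absurd h1 hL⟩
    choose Ψ hΨ using hex
    exact ⟨Ψ, hEq.range_pos, hEq.herm, by positivity, L₁, fun L _ hL => hΨ L hL⟩
  · intro Δ Ψ hF
    obtain ⟨L₂, hL₂⟩ := hF.ground
    -- the partition function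
    have hpart : ∀ (L : ℕ) [NeZero L], max L₁ L₂ ≤ L → ∀ hH : (ham h L).IsHermitian,
        ∀ β : ℝ, 0 ≤ β → partition hH (energy (ham h L) (Ψ L)) β ≤
            (1 + 2 * Real.exp (-(β * γ / 2))) ^ (k * L ^ 2) := by
      intro L _ hL hH β hβ
      obtain ⟨s₀, E, x, hs, hx0, hx, hE, hTB⟩ := main L ((le_max_left _ _).trans hL) hH
      obtain ⟨hn, hg⟩ := hL₂ L ((le_max_right _ _).trans hL)
      obtain ⟨he1, j, hj⟩ := energy_le (Ψ := Ψ) hH hF.gap_pos hn hg
      have hEe : energy (ham h L) (Ψ L) = E := by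
        apply le_antisymm
        · obtain ⟨E₁, hE₁, -, hgap⟩ := hg
          have h1 : energy (ham h L) (Ψ L) = E₁ := by
            unfold energy
            rw [hE₁, ip_smul_right, ip_self_one (Ψ L) hn, mul_one, Complex.ofReal_re]
          rw [h1]
          rcases hgap E x hx0 hE with h2 | h2
          · exact h2.ge
          · linarith [hF.gap_pos]
        · have h1 := hTB.ge hs j
          simp only [hj] at h1
          exact (div_le_div_iff_of_pos_right hγ).1 h1
      have h1 := hTB.partition hs (β := β * γ) (by positivity)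
      have h2 : ∀ j, β * γ * (hH.eigenvalues j / γ - E / γ) = β * (hH.eigenvalues j - E) := by
        intro j
        field_simp
      simp only [h2] at h1
      rw [hEe]
      exact h1
    -- at the inverse temperature `4 log L / γ`
    have hpart2 : ∀ (L : ℕ) [NeZero L], max L₁ L₂ ≤ L → ∀ hH : (ham h L).IsHermitian,
        partition hH (energy (ham h L) (Ψ L)) (4 / γ * Real.log L) ≤ Real.exp (2 * k) := by
      intro L _ hL hH
      have hL0 : (0 : ℝ) < L := by
        have := NeZero.pos L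
        exact_mod_cast this
      have hL1 : (1 : ℝ) ≤ L := by
        have := NeZero.pos L
        exact_mod_cast this
      have hl0 := Real.log_nonneg hL1
      refine (hpart L hL hH _ (by positivity)).trans ?_
      have e1 : Real.exp (-(4 / γ * Real.log L * γ / 2)) = ((L : ℝ) ^ 2)⁻¹ := by
        have : -(4 / γ * Real.log L * γ / 2) = -(2 * Real.log L) := by field_simp; ring
        rw [this, Real.exp_neg]
        congr 1
        have h3 : 2 * Real.log L = Real.log ((L : ℝ) ^ 2) := by
          rw [Real.log_pow]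
          norm_num
        rw [h3, Real.exp_log (by positivity)]
      rw [e1]
      have h3 : 1 + 2 * ((L : ℝ) ^ 2)⁻¹ ≤ Real.exp (2 * ((L : ℝ) ^ 2)⁻¹) := by
        have := Real.add_one_le_exp (2 * ((L : ℝ) ^ 2)⁻¹)
        linarith
      refine (pow_le_pow_left₀ (by positivity) h3 _).trans (le_of_eq ?_)
      rw [← Real.exp_nat_mul]
      congr 1
      push_cast
      field_simp
    refine ⟨⟨max L₁ L₂, fun L _ hL hH => ⟨fun β hβ => ?_, fun M hM => ?_⟩⟩, ?_⟩
    · rw [Nat.add_sub_cancel]
      exact hpart L hL hH β hβ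
    · have hL0 : (0 : ℝ) < L := by
        have := NeZero.pos L
        exact_mod_cast this
      have hL1 : (1 : ℝ) ≤ L := by
        have := NeZero.pos L
        exact_mod_cast this
      have hl0 := Real.log_nonneg hL1
      have h1 := Pool.Agent.T6.H6.PE.numStates_le hH (energy (ham h L) (Ψ L)) M
        (4 / γ * Real.log L) (by positivity)
      have h2 := hpart2 L hL hH
      refine h1.trans ((mul_le_mul_of_nonneg_left h2 (Real.exp_pos _).le).trans (le_of_eq ?_))
      rw [mul_comm, Real.rpow_def_of_pos hL0]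
      congr 1
      · push_cast
        ring_nf
      · congr 1
        ring
    · refine Pool.Agent.Y159.PepsScale.thermK hF 1 le_rfl
        (C := max (4 / γ) (2 * k)) ?_
      refine ⟨max 3 (max L₁ L₂), fun L _ hL hH => ?_⟩
      have hL3 : 3 ≤ L := (le_max_left _ _).trans hL
      have hl1 := log_ge_one hL3
      refine ⟨4 / γ * Real.log L, by positivity, ?_, ?_⟩
      · rw [pow_one]
        exact mul_le_mul_of_nonneg_right (le_max_left _ _) (by linarith)
      · refine (hpart2 L ((le_max_right _ _).trans hL) hH).trans (Real.exp_le_exp.2 ?_)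
        rw [pow_one]
        have hk : (0 : ℝ) ≤ 2 * k := by positivity
        calc (2 * k : ℝ) ≤ 2 * k * Real.log L := le_mul_of_one_le_right hk hl1
          _ ≤ _ := mul_le_mul_of_nonneg_right (le_max_right _ _) (by linarith)

end Pool.Agent.Results.MP_953b23_mp.WeakInteractions
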